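import Pool.Agent.Lib.MP_c02e9e_co.SA.OnesFinal

/-!
# MP_c02e9e_co: nearly decomposable Boolean matrices with a given number of ones

Uniform two-sided estimate for the number of nearly decomposable matrices of order `n` with exactly
`3 n - d` ones, for all `3 ≤ d ≤ n` (these are all possible numbers of ones when `n ≥ 3`):
`log N(n, 3n-d) = n log n - n + n log ⌊(d-1)²/4⌋ - d log n + O(d log (2n/d))`.
-/

namespace Pool.Agent.Results.MP_c02e9e_co.CountByOnes

open _root_.MP_c02e9e_co

theorem result : ∀ n d : ℕ, 3 ≤ d → d ≤ n →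
    |Real.log (numNDOnes n (3 * n - d)) -
      (n * Real.log n - n + n * Real.log ((d - 1) ^ 2 / 4 : ℕ) - d * Real.log n)| ≤
      300 * (d * Real.log (2 * n / d)) :=
  fun _ _ hd hn => SA.count_by_ones hd hn

end Pool.Agent.Results.MP_c02e9e_co.CountByOnes
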