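import Pool.Agent.Lib.MP_c02e9e_co.SA.Final

/-!
# MP_c02e9e_co: the number of nearly decomposable Boolean matrices

`log N_n = 3 n log n - 2 n log log n - 3 n + O(n log log n / log n)`; in particular
`N_n^(1/n) ~ e^(-3) n^3 / (log n)^2` (`SA.final_tendsto`).
-/

namespace Pool.Agent.Results.MP_c02e9e_co.SharpAsymptotics

open _root_.MP_c02e9e_co Filter Asymptotics

theorem result :
    (fun n : ℕ => Real.log (numND n) -
      (3 * n * Real.log n - 2 * n * Real.log (Real.log n) - 3 * n)) =O[atTop]
      (fun n : ℕ => n * Real.log (Real.log n) / Real.log n) :=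
  SA.final_bigO

end Pool.Agent.Results.MP_c02e9e_co.SharpAsymptotics
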